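import Pool.Agent.Helper82.BR.St3

set_option autoImplicit false

namespace Pool.Agent.Helper80.BR

open scoped ComplexConjugate
open Pool.Agent.Helper82.BR

theorem bis (z p : ℂ) (h : dist z 0 = dist z p) : z * conj p + conj z * p = p * conj p := by
  have h1 : ‖z‖ = ‖z - p‖ := by simpa [dist_eq_norm] using h
  have h2 : ‖z‖ ^ 2 = ‖z - p‖ ^ 2 := by rw [h1]
  have h3 : ((‖z‖ ^ 2 : ℝ) : ℂ) = ((‖z - p‖ ^ 2 : ℝ) : ℂ) := by rw [h2]
  push_cast at h3
  rw [← Complex.mul_conj', ← Complex.mul_conj'] at h3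
  simp only [map_sub] at h3
  linear_combination h3

theorem two {S : Finset ℂ} (hR : Rich S) {p : ℂ} (h0 : (0 : ℂ) ∈ S) (hp : p ∈ S) (hne : p ≠ 0) :
    ∃ x ∈ S, ∃ y ∈ S, x ≠ y ∧ x * conj p + conj x * p = p * conj p ∧
      y * conj p + conj y * p = p * conj p := by
  have h2 := hR 0 h0 p hp (Ne.symm hne)
  obtain ⟨x, hx, y, hy, hxy⟩ := Finset.one_lt_card.mp (by omega :
    1 < (S.filter (fun s => dist s 0 = dist s p)).card)
  rw [Finset.mem_filter] at hx hy
  exact ⟨x, hx.1, y, hy.1, hxy, bis x p hx.2, bis y p hy.2⟩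

theorem n1 (r : ℂ) (h6 : r^6 = r^3 - 1) (h : (1)*r^0 + (-1)*r^1 + (1)*r^2 = 0) : False := by
  have h1 : (1:ℂ) = 0 := by linear_combination ((2/3)*r^0 + (2/3)*r^1 + (-1/3)*r^3 + (-1/3)*r^4) * h + ((1/3)*r^0) * h6
  exact one_ne_zero h1

theorem n2 (r : ℂ) (h6 : r^6 = r^3 - 1) (h : (1)*r^0 + (-1)*r^2 + (1)*r^4 = 0) : False := by
  have h1 : (1:ℂ) = 0 := by linear_combination ((1/1)*r^0 + (1/1)*r^2 + (-1/1)*r^3 + (-1/1)*r^5) * h + ((1/1)*r^3) * h6
  exact one_ne_zero h1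

theorem n3 (r : ℂ) (h6 : r^6 = r^3 - 1) (h : (1)*r^0 + (-1)*r^1 + (-1)*r^2 + (1)*r^3 = 0) : False := by
  have h1 : (1:ℂ) = 0 := by linear_combination ((-4/3)*r^0 + (-5/3)*r^1 + (-4/3)*r^2 + (2/3)*r^3 + (4/3)*r^4 + (5/3)*r^5) * h + ((7/3)*r^0 + (1/3)*r^1 + (-5/3)*r^2) * h6
  exact one_ne_zero h1

theorem n4 (r : ℂ) (h6 : r^6 = r^3 - 1) (h : (1)*r^0 + (-1)*r^1 + (-1)*r^4 + (1)*r^5 = 0) : False := by
  have h1 : (1:ℂ) = 0 := by linear_combination ((-2/3)*r^0 + (-1/3)*r^1 + (-2/3)*r^2 + (1/3)*r^3 + (2/3)*r^4 + (4/3)*r^5) * h + ((5/3)*r^0 + (-1/3)*r^1 + (1/3)*r^2 + (2/3)*r^3 + (-4/3)*r^4) * h6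
  exact one_ne_zero h1

theorem n5 (r : ℂ) (h6 : r^6 = r^3 - 1) (h : (1)*r^1 = 0) : False := by
  have h1 : (1:ℂ) = 0 := by linear_combination ((1/1)*r^2 + (-1/1)*r^5) * h + ((1/1)*r^0) * h6
  exact one_ne_zero h1

theorem n6 (r : ℂ) (h6 : r^6 = r^3 - 1) (h : (1)*r^0 + (1)*r^1 + (1)*r^2 = 0) : False := by
  have h1 : (1:ℂ) = 0 := by linear_combination ((1/1)*r^3 + (-1/1)*r^4) * h + ((1/1)*r^0) * h6
  exact one_ne_zero h1

theorem n7 (r : ℂ) (h6 : r^6 = r^3 - 1) (h : (1)*r^0 + (1)*r^1 + (-1)*r^2 + (1)*r^3 + (1)*r^4 = 0) : False := by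
  have h1 : (1:ℂ) = 0 := by linear_combination ((5/17)*r^0 + (-2/17)*r^1 + (4/17)*r^2 + (-4/17)*r^3 + (2/17)*r^4 + (-5/17)*r^5) * h + ((12/17)*r^0 + (-3/17)*r^1 + (3/17)*r^2 + (5/17)*r^3) * h6
  exact one_ne_zero h1

theorem n8 (r : ℂ) (h6 : r^6 = r^3 - 1) (h : (1)*r^1 + (1)*r^5 = 0) : False := by
  have h1 : (1:ℂ) = 0 := by linear_combination ((1/1)*r^0 + (-1/1)*r^1 + (1/1)*r^2 + (-1/1)*r^3) * h + ((1/1)*r^0 + (-1/1)*r^1 + (1/1)*r^2) * h6
  exact one_ne_zero h1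

theorem hR3 : StR3 := by
  intro S w r b1 b2 b3 hC hw
  obtain ⟨hw2, hn, hR, hb1, hb2, hb3, e1, e2, e3, hS⟩ := hC
  have h6 : r ^ 6 = r ^ 3 - 1 := by rw [← hw] at hw2; linear_combination hw2
  have hc : r * conj r = 1 := by rw [Complex.mul_conj', hn]; norm_num
  obtain ⟨c, hcd⟩ : ∃ c, c = conj r := ⟨_, rfl⟩
  rw [← hcd] at hc
  have hr0 : r ≠ 0 := fun h => n5 r h6 (by rw [h]; ring)
  have f1 : conj b1 = c * b1 := by
    linear_combination (-c) * e1 - conj b1 * hc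
  have f2 : conj b2 = c ^ 3 * b2 := by
    linear_combination (-c ^ 3) * e2 - conj b2 * (1 + r * c + r ^ 2 * c ^ 2) * hc
  have f3 : conj b3 = c ^ 5 * b3 := by
    linear_combination (-c ^ 5) * e3 -
      conj b3 * (1 + r * c + r ^ 2 * c ^ 2 + r ^ 3 * c ^ 3 + r ^ 4 * c ^ 4) * hc
  have h0S : (0 : ℂ) ∈ S := (hS 0).mpr (by simp)
  have h1S : (1 : ℂ) ∈ S := (hS 1).mpr (by simp)
  have hrS : r ∈ S := (hS r).mpr (by simp)
  have hr2S : r ^ 2 ∈ S := (hS _).mpr (by simp)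
  have hb1S : b1 ∈ S := (hS _).mpr (by simp)
  have hcv : c = r ^ 2 - r ^ 5 := by
    have h : r * c = r * (r ^ 2 - r ^ 5) := by linear_combination hc + h6
    exact mul_left_cancel₀ hr0 h
  -- bisector of 0 and r
  have hA : ∀ z ∈ S, z * conj r + conj z * r = r * conj r →
      (z = b1 ∧ b1 * (1 + r) = r) ∨ (z = b2 ∧ b2 * (1 + r) = r ^ 2) ∨
      (z = b3 ∧ b3 * (1 + r ^ 3) = r ^ 4) := by
    intro z hz he
    rw [← hcd] at he
    rcases (hS z).mp hz with h | h | h | h | h | h | h | h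
    · exfalso; rw [h] at he; simp only [map_zero] at he
      exact one_ne_zero (α := ℂ) (by linear_combination (-1) * he - hc)
    · exfalso; rw [h] at he; simp only [map_one] at he
      exact n1 r h6 (by linear_combination r * he + (r - 1) * hc)
    · exfalso; rw [h, ← hcd] at he
      exact one_ne_zero (α := ℂ) (by linear_combination he - hc)
    · exfalso; rw [h] at he; simp only [map_pow, ← hcd] at he
      exact n1 r h6 (by linear_combination r * he + (r - 1 - r * (r + c)) * hc)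
    · exfalso; rw [h] at he; simp only [map_pow, ← hcd] at he
      exact n2 r h6 (by
        linear_combination r ^ 2 * he + (r ^ 2 - (r ^ 4 + r * c * (r * c) + r * c + 1) + r ^ 4 - r ^ 4) * hc)
    · left; refine ⟨h, ?_⟩
      rw [h, f1] at he
      linear_combination r * he + (r - b1 - b1 * r) * hc
    · right; left; refine ⟨h, ?_⟩
      rw [h, f2] at he
      linear_combination r ^ 2 * he + (r ^ 2 - b2 * r - b2 * (r ^ 2 * c ^ 2 + r * c + 1)) * hc
    · right; right; refine ⟨h, ?_⟩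
      rw [h, f3] at he
      linear_combination r ^ 4 * he + (r ^ 4 - b3 * r ^ 3 -
        b3 * (r ^ 4 * c ^ 4 + r ^ 3 * c ^ 3 + r ^ 2 * c ^ 2 + r * c + 1)) * hc
  -- bisector of 0 and r^2
  have hB : ∀ z ∈ S, z * conj (r ^ 2) + conj z * r ^ 2 = r ^ 2 * conj (r ^ 2) →
      (z = b1 ∧ b1 * (1 + r ^ 3) = r ^ 2) ∨ (z = b2 ∧ b2 * (1 + r) = r ^ 2) ∨
      (z = b3 ∧ b3 * (1 + r) = r ^ 3) := by
    intro z hz he
    simp only [map_pow, ← hcd] at he
    have he' : z * c ^ 2 + conj z * r ^ 2 = 1 := by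
      linear_combination he + (r * c + 1) * hc
    rcases (hS z).mp hz with h | h | h | h | h | h | h | h
    · exfalso; rw [h] at he'; simp only [map_zero] at he'
      exact one_ne_zero (α := ℂ) (by linear_combination (-1) * he')
    · exfalso; rw [h] at he'; simp only [map_one] at he'
      exact n2 r h6 (by linear_combination r ^ 2 * he' - (r * c + 1) * hc)
    · exfalso; rw [h, ← hcd] at he'
      exact n1 r h6 (by linear_combination r * he' - (r * c + 1 + r ^ 2) * hc)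
    · exfalso; rw [h] at he'; simp only [map_pow, ← hcd] at he'
      exact one_ne_zero (α := ℂ) (by linear_combination he' - 2 * (r * c + 1) * hc)
    · exfalso; rw [h] at he'; simp only [map_pow, ← hcd] at he'
      exact n1 r h6 (by
        linear_combination r * he' - (r ^ 2 * (r * c + 1) + (r ^ 2 * c ^ 2 + r * c + 1)) * hc)
    · left; refine ⟨h, ?_⟩
      rw [h, f1] at he'
      linear_combination r ^ 2 * he' - (b1 * (r * c + 1) + b1 * r ^ 3) * hc
    · right; left; refine ⟨h, ?_⟩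
      rw [h, f2] at he'
      linear_combination r ^ 2 * he' - (b2 * (r * c + 1) + b2 * r * (r ^ 2 * c ^ 2 + r * c + 1)) * hc
    · right; right; refine ⟨h, ?_⟩
      rw [h, f3] at he'
      linear_combination r ^ 3 * he' - (b3 * r * (r * c + 1) +
        b3 * (r ^ 4 * c ^ 4 + r ^ 3 * c ^ 3 + r ^ 2 * c ^ 2 + r * c + 1)) * hc
  have key1 : (b1 * (1 + r) = r ∧ b2 * (1 + r) = r ^ 2) ∨
      (b1 * (1 + r) = r ∧ b3 * (1 + r ^ 3) = r ^ 4) ∨
      (b2 * (1 + r) = r ^ 2 ∧ b3 * (1 + r ^ 3) = r ^ 4) := by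
    obtain ⟨x, hx, y, hy, hxy, ex, ey⟩ := two hR h0S hrS hr0
    rcases hA x hx ex with ⟨hx1, hx2⟩ | ⟨hx1, hx2⟩ | ⟨hx1, hx2⟩ <;>
    rcases hA y hy ey with ⟨hy1, hy2⟩ | ⟨hy1, hy2⟩ | ⟨hy1, hy2⟩ <;>
    first
    | exact absurd (hx1.trans hy1.symm) hxy
    | exact Or.inl ⟨hx2, hy2⟩
    | exact Or.inl ⟨hy2, hx2⟩
    | exact Or.inr (Or.inl ⟨hx2, hy2⟩)
    | exact Or.inr (Or.inl ⟨hy2, hx2⟩)
    | exact Or.inr (Or.inr ⟨hx2, hy2⟩)
    | exact Or.inr (Or.inr ⟨hy2, hx2⟩)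
  have key2 : (b1 * (1 + r ^ 3) = r ^ 2 ∧ b2 * (1 + r) = r ^ 2) ∨
      (b1 * (1 + r ^ 3) = r ^ 2 ∧ b3 * (1 + r) = r ^ 3) ∨
      (b2 * (1 + r) = r ^ 2 ∧ b3 * (1 + r) = r ^ 3) := by
    obtain ⟨x, hx, y, hy, hxy, ex, ey⟩ := two hR h0S hr2S (pow_ne_zero 2 hr0)
    rcases hB x hx ex with ⟨hx1, hx2⟩ | ⟨hx1, hx2⟩ | ⟨hx1, hx2⟩ <;>
    rcases hB y hy ey with ⟨hy1, hy2⟩ | ⟨hy1, hy2⟩ | ⟨hy1, hy2⟩ <;>
    first
    | exact absurd (hx1.trans hy1.symm) hxy
    | exact Or.inl ⟨hx2, hy2⟩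
    | exact Or.inl ⟨hy2, hx2⟩
    | exact Or.inr (Or.inl ⟨hx2, hy2⟩)
    | exact Or.inr (Or.inl ⟨hy2, hx2⟩)
    | exact Or.inr (Or.inr ⟨hx2, hy2⟩)
    | exact Or.inr (Or.inr ⟨hy2, hx2⟩)
  have inc1 : b1 * (1 + r) = r → b1 * (1 + r ^ 3) = r ^ 2 → False := by
    intro h1 h2
    have h : r * (1 - r - r ^ 2 + r ^ 3) = 0 := by
      linear_combination (-(1 + r ^ 3)) * h1 + (1 + r) * h2
    rcases mul_eq_zero.mp h with h | h
    · exact hr0 h
    · exact n3 r h6 (by linear_combination h)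
  have inc3 : b3 * (1 + r ^ 3) = r ^ 4 → b3 * (1 + r) = r ^ 3 → False := by
    intro h1 h2
    have h : r ^ 3 * (1 - r - r ^ 2 + r ^ 3) = 0 := by
      linear_combination (1 + r) * h1 - (1 + r ^ 3) * h2
    rcases mul_eq_zero.mp h with h | h
    · exact pow_ne_zero 3 hr0 h
    · exact n3 r h6 (by linear_combination h)
  -- case I
  have caseI : b1 * (1 + r) = r → b2 * (1 + r) = r ^ 2 → b3 * (1 + r) = r ^ 3 → False := by
    intro a1 a2 a3
    obtain ⟨x, hx, -, -, -, ex, -⟩ := two hR h0S hb1S hb1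
    rw [f1] at ex
    have ex' : (x + r * conj x) * (1 + r) = r := by
      have hh : b1 * (x + r * conj x) = b1 * b1 := by
        linear_combination r * ex + (b1 * b1 - x * b1) * hc
      have hh2 := mul_left_cancel₀ hb1 hh
      rw [hh2]; exact a1
    rcases (hS x).mp hx with h | h | h | h | h | h | h | h
    · rw [h] at ex'; simp only [map_zero] at ex'
      exact hr0 (by linear_combination (-1) * ex')
    · rw [h] at ex'; simp only [map_one] at ex'
      exact n6 r h6 (by linear_combination ex')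
    · rw [h, ← hcd] at ex'
      exact n6 r h6 (by linear_combination ex' - (1 + r) * hc)
    · rw [h] at ex'; simp only [map_pow, ← hcd] at ex'
      exact n7 r h6 (by linear_combination r * ex' - (1 + r) * (r * c + 1) * hc)
    · rw [h] at ex'; simp only [map_pow, ← hcd] at ex'
      exact n8 r h6 (by
        linear_combination r ^ 2 * ex' - (1 + r) * (r ^ 2 * c ^ 2 + r * c + 1) * hc - h6)
    · rw [h, f1] at ex'
      exact hr0 (by linear_combination ex' - 2 * a1 - (1 + r) * b1 * hc)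
    · rw [h, f2] at ex'
      exact n1 r h6 (by
        linear_combination ex' - (1 + r * c ^ 3) * a2 - (r ^ 2 * c ^ 2 + r * c + 1) * hc)
    · rw [h, f3] at ex'
      exact n2 r h6 (by
        linear_combination r * ex' - r * (1 + r * c ^ 5) * a3 -
          (r ^ 4 * c ^ 4 + r ^ 3 * c ^ 3 + r ^ 2 * c ^ 2 + r * c + 1) * hc)
  -- case II
  have caseII : b1 * (1 + r ^ 3) = r ^ 2 → b2 * (1 + r) = r ^ 2 → b3 * (1 + r ^ 3) = r ^ 4 →
      False := by
    intro a1 a2 a3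
    have hC : ∀ z ∈ S, z * conj 1 + conj z * 1 = 1 * conj 1 → z = r ^ 3 := by
      intro z hz he
      simp only [map_one, mul_one] at he
      rcases (hS z).mp hz with h | h | h | h | h | h | h | h
      · exfalso; rw [h] at he; simp only [map_zero] at he
        exact one_ne_zero (α := ℂ) (by linear_combination (-1) * he)
      · exfalso; rw [h] at he; simp only [map_one] at he
        exact one_ne_zero (α := ℂ) (by linear_combination he)
      · exfalso; rw [h, ← hcd] at he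
        exact n1 r h6 (by linear_combination r * he - hc)
      · exfalso; rw [h] at he; simp only [map_pow, ← hcd] at he
        exact n2 r h6 (by linear_combination r ^ 2 * he - (r * c + 1) * hc)
      · exact h
      · exfalso; rw [h, f1] at he
        exact inc1 (by linear_combination r * he - b1 * hc) a1
      · exfalso; rw [h, f2] at he
        have g : b2 * (1 + r ^ 3) = r ^ 3 := by
          linear_combination r ^ 3 * he - b2 * (r ^ 2 * c ^ 2 + r * c + 1) * hc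
        have h : r ^ 2 * (1 - r - r ^ 2 + r ^ 3) = 0 := by
          linear_combination (-(1 + r ^ 3)) * a2 + (1 + r) * g
        rcases mul_eq_zero.mp h with h | h
        · exact pow_ne_zero 2 hr0 h
        · exact n3 r h6 (by linear_combination h)
      · exfalso; rw [h, f3] at he
        have g : b3 * (1 + r ^ 5) = r ^ 5 := by
          linear_combination r ^ 5 * he -
            b3 * (r ^ 4 * c ^ 4 + r ^ 3 * c ^ 3 + r ^ 2 * c ^ 2 + r * c + 1) * hc
        have h : r ^ 4 * (1 - r - r ^ 4 + r ^ 5) = 0 := by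
          linear_combination (-(1 + r ^ 5)) * a3 + (1 + r ^ 3) * g
        rcases mul_eq_zero.mp h with h | h
        · exact pow_ne_zero 4 hr0 h
        · exact n4 r h6 (by linear_combination h)
    obtain ⟨x, hx, y, hy, hxy, ex, ey⟩ := two hR h0S h1S one_ne_zero
    exact hxy ((hC x hx ex).trans (hC y hy ey).symm)
  rcases key1 with ⟨a, b⟩ | ⟨a, b⟩ | ⟨a, b⟩ <;> rcases key2 with ⟨d, e⟩ | ⟨d, e⟩ | ⟨d, e⟩
  · exact inc1 a d
  · exact inc1 a d
  · exact caseI a b e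
  · exact inc1 a d
  · exact inc1 a d
  · exact inc3 b e
  · exact caseII d a b
  · exact inc3 b e
  · exact inc3 b e

end Pool.Agent.Helper80.BR
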